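import Pool.Agent.Helper63.PG.Alg

/-! # PG module TAU: dyadic time stamps -/

set_option autoImplicit false

namespace Pool.Agent.Helper8.PG

open Pool.Agent.Helper63.PG Pool.Agent.Helper63.OC Pool.Agent.Helper24.OCM

theorem hTAU {H : SimpleGraph ℕ} {v : ℕ} (h : hasp H v) :
    (fn H v < v ∧ H.Adj v (fn H v)) ∧ fn H v ≤ tau H v ∧ tau H v < v ∧
      2 ^ te H v ∣ tau H v + 1 ∧ te H v ≤ Nat.log 2 v ∧
      (∀ e y, fn H v ≤ y → y < v → 2 ^ e ∣ y + 1 → e ≤ te H v) := by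
  have h1 : fn H v < v ∧ H.Adj v (fn H v) := by
    obtain ⟨u, hu⟩ := h
    exact Nat.sInf_mem (s := {u | u < v ∧ H.Adj v u}) ⟨u, hu⟩
  have hbd : ∀ e y, y < v → 2 ^ e ∣ y + 1 → e ≤ Nat.log 2 v := by
    intro e y hy hd
    have h2 : 2 ^ e ≤ v := (Nat.le_of_dvd (Nat.succ_pos y) hd).trans hy
    exact Nat.le_log_of_pow_le one_lt_two h2
  have hbdd : BddAbove {e | ∃ y, fn H v ≤ y ∧ y < v ∧ 2 ^ e ∣ y + 1} := by
    refine ⟨Nat.log 2 v, ?_⟩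
    rintro e ⟨y, -, hy, hd⟩
    exact hbd e y hy hd
  have hmem : te H v ∈ {e | ∃ y, fn H v ≤ y ∧ y < v ∧ 2 ^ e ∣ y + 1} := by
    refine Nat.sSup_mem ⟨0, fn H v, le_refl _, h1.1, ?_⟩ hbdd
    rw [pow_zero]
    exact one_dvd _
  have htau : tau H v ∈ {y | fn H v ≤ y ∧ y < v ∧ 2 ^ te H v ∣ y + 1} :=
    Nat.sInf_mem (s := {y | fn H v ≤ y ∧ y < v ∧ 2 ^ te H v ∣ y + 1}) hmem
  obtain ⟨t1, t2, t3⟩ := htau
  refine ⟨h1, t1, t2, t3, hbd _ _ t2 t3, fun e y hy hyv hd => ?_⟩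
  exact le_csSup hbdd ⟨y, hy, hyv, hd⟩

end Pool.Agent.Helper8.PG
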